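import Pool.Agent.H90.FD.Sop

/-!
# Project FD, step 2: `LL` through the Eulerian polynomials
-/

open Finset Polynomial

namespace H90FD

variable {E : Type*} [Field E]

/-- Leibniz rule for the multiplication with `n` -/
theorem iter_nmul (q : ℕ → E) (r : ℕ) :
    ((fwdDiff 1)^[r + 1] (fun n : ℕ => (n : E) * q n)) =
      fun n : ℕ => (n : E) * ((fwdDiff 1)^[r + 1] q) n + (r + 1) * ((fwdDiff 1)^[r] q) (n + 1) := by
  induction r with
  | zero =>
    funext n
    simp [fwdDiff]
    ring
  | succ r ih =>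
    rw [Function.iterate_succ_apply', ih]
    funext n
    rw [Function.iterate_succ_apply' _ (r + 1) q]
    show ((n + 1 : ℕ) : E) * ((fwdDiff 1)^[r + 1] q) (n + 1) +
        (r + 1) * ((fwdDiff 1)^[r] q) (n + 1 + 1) -
        ((n : E) * ((fwdDiff 1)^[r + 1] q) n + (r + 1) * ((fwdDiff 1)^[r] q) (n + 1)) =
      (n : E) * (((fwdDiff 1)^[r + 1] q) (n + 1) - ((fwdDiff 1)^[r + 1] q) n) +
        (((r + 1 : ℕ) : E) + 1) * ((fwdDiff 1)^[r + 1] q) (n + 1)
    have h : ((fwdDiff 1)^[r + 1] q) (n + 1) =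
        ((fwdDiff 1)^[r] q) (n + 1 + 1) - ((fwdDiff 1)^[r] q) (n + 1) := by
      rw [Function.iterate_succ_apply' _ r q]
      rfl
    push_cast
    linear_combination (-(r : E) - 1) * h

theorem iter_nmul_zero (q : ℕ → E) (r : ℕ) :
    ((fwdDiff 1)^[r + 1] (fun n : ℕ => (n : E) * q n)) 0 =
      (r + 1) * (((fwdDiff 1)^[r] q) 0 + ((fwdDiff 1)^[r + 1] q) 0) := by
  rw [iter_nmul]
  simp only [Nat.cast_zero, zero_mul, zero_add]
  rw [iter_succ_zero]

/-- the numbers `Δ^r (n^m) (0)` -/
def st (E : Type*) [Field E] (m r : ℕ) : E := ((fwdDiff 1)^[r] (fun n : ℕ => (n : E) ^ m)) 0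

theorem st_succ_zero (m : ℕ) : st E (m + 1) 0 = 0 := by
  simp [st]

theorem st_succ (m r : ℕ) : st E (m + 1) (r + 1) = (r + 1) * (st E m r + st E m (r + 1)) := by
  unfold st
  rw [← iter_nmul_zero]
  have e : (fun n : ℕ => (n : E) ^ (m + 1)) = fun n : ℕ => (n : E) * (n : E) ^ m := by
    funext n
    ring
  rw [e]

theorem st_top (m : ℕ) : st E m (m + 1) = 0 := by
  unfold st
  have h : (fwdDiff 1)^[m + 1] (fun n : ℕ => (n : E) ^ m) = 0 := pol_pow m (Nat.lt_succ_self m)
  rw [h]
  rfl

theorem PE_map (PE : ℕ → ℤ[X]) (h0 : PE 0 = 1)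
    (hs : ∀ m, PE (m + 1) = X * ((1 - X) * derivative (PE m) + ((m : ℤ[X]) + 1) * PE m)) (m : ℕ) :
    (PE m).map (Int.castRingHom E) =
      ∑ r ∈ range (m + 1), C (st E m r) * X ^ r * (1 - X) ^ (m - r) := by
  induction m with
  | zero => simp [h0, st]
  | succ m ih =>
    rw [hs, Polynomial.map_mul, Polynomial.map_add, Polynomial.map_mul, Polynomial.map_mul,
      ← Polynomial.derivative_map, ih]
    simp only [Polynomial.map_X, Polynomial.map_sub, Polynomial.map_one, Polynomial.map_add,
      Polynomial.map_natCast]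
    rw [derivative_sum, Finset.mul_sum, Finset.mul_sum, ← Finset.sum_add_distrib, Finset.mul_sum]
    have e1 : ∀ r ∈ range (m + 1),
        X * ((1 - X) * derivative (C (st E m r) * X ^ r * (1 - X) ^ (m - r)) +
          ((m : E[X]) + 1) * (C (st E m r) * X ^ r * (1 - X) ^ (m - r))) =
        C (st E m r) * ((r : E[X]) * X ^ r * (1 - X) ^ (m + 1 - r)) +
        C (st E m r) * (((r : E[X]) + 1) * X ^ (r + 1) * (1 - X) ^ (m - r)) := by
      intro r hr
      have hr' : r ≤ m := Nat.lt_succ_iff.1 (Finset.mem_range.1 hr)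
      obtain ⟨k, rfl⟩ := Nat.exists_eq_add_of_le hr'
      rw [show r + k - r = k by omega, show r + k + 1 - r = k + 1 by omega]
      rw [derivative_mul, derivative_mul, derivative_C, derivative_X_pow, derivative_pow]
      simp only [derivative_sub, derivative_one, derivative_X]
      rcases r with _ | r
      · rcases k with _ | k
        · simp
        · simp
          ring
      · rcases k with _ | k
        · simp
          ring
        · simp
          ring
    rw [Finset.sum_congr rfl e1, Finset.sum_add_distrib]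
    rw [Finset.sum_range_succ' (fun r => C (st E (m + 1) r) * X ^ r * (1 - X) ^ (m + 1 - r))]
    rw [st_succ_zero]
    have e2 : ∀ r ∈ range (m + 1), C (st E (m + 1) (r + 1)) * X ^ (r + 1) *
        (1 - X) ^ (m + 1 - (r + 1)) =
        C (st E m r) * (((r : E[X]) + 1) * X ^ (r + 1) * (1 - X) ^ (m - r)) +
        C (st E m (r + 1)) * (((r + 1 : ℕ) : E[X]) * X ^ (r + 1) * (1 - X) ^ (m + 1 - (r + 1))) := by
      intro r _
      rw [st_succ, show m + 1 - (r + 1) = m - r by omega]
      simp only [C_mul, C_add, C_1, Nat.cast_add, Nat.cast_one]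
      rw [show (C (r : E) : E[X]) = (r : E[X]) from rfl]
      ring
    rw [Finset.sum_congr rfl e2, Finset.sum_add_distrib]
    have e3 := Finset.sum_range_succ'
      (fun r => C (st E m r) * ((r : E[X]) * X ^ r * (1 - X) ^ (m + 1 - r))) (m + 1)
    have e4 := Finset.sum_range_succ
      (fun r => C (st E m r) * ((r : E[X]) * X ^ r * (1 - X) ^ (m + 1 - r))) (m + 1)
    rw [e4, st_top] at e3
    simp only [C_0, zero_mul, add_zero, Nat.cast_zero, mul_zero] at e3 ⊢
    rw [e3]
    ring

/-- **The bridge** to the Eulerian polynomials. -/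
theorem LL_eq_PE (PE : ℕ → ℤ[X]) (h0 : PE 0 = 1)
    (hs : ∀ m, PE (m + 1) = X * ((1 - X) * derivative (PE m) + ((m : ℤ[X]) + 1) * PE m))
    (m : ℕ) (t : E) : LL m t = aeval t (PE m) / (1 - t) ^ (m + 1) := by
  have h := PE_map (E := E) PE h0 hs m
  have h1 : aeval t (PE m) = ∑ r ∈ range (m + 1), st E m r * t ^ r * (1 - t) ^ (m - r) := by
    have := congrArg (Polynomial.eval t) h
    rw [Polynomial.eval_map, Polynomial.eval_finsetSum] at this
    simp only [eval_mul, eval_C, eval_pow, eval_X, eval_sub, eval_one] at this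
    rw [← this, Polynomial.aeval_def]
    rfl
  rw [h1]
  unfold LL S
  rw [Finset.sum_div]
  refine Finset.sum_congr rfl fun r hr => ?_
  have hr' : r ≤ m := Nat.lt_succ_iff.1 (Finset.mem_range.1 hr)
  show st E m r * t ^ r / (1 - t) ^ (r + 1) = _
  by_cases ht : (1 : E) - t = 0
  · rw [ht]
    simp
  · rw [show m + 1 = (m - r) + (r + 1) by omega, pow_add]
    field_simp
    ring

end H90FD
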