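import Pool.Agent.H90.FD.Cplx

/-!
# Project FD, step 2: the complex argument, stability under inversion
-/

open Finset Polynomial

namespace H90FD

noncomputable section

variable {ι : Type*} [Fintype ι]

theorem im_ne_zero {N : ℕ} (hN : 0 < N) {η : ℂ} (h : η ∈ nthRootsFinset N (1 : ℂ)) (h1 : η ≠ 1)
    (h2 : η ≠ -1) : η.im ≠ 0 := by
  intro him
  rw [mem_nthRootsFinset hN] at h
  have hn : ‖η‖ = 1 := Complex.norm_eq_one_of_pow_eq_one h hN.ne'
  have hre : η = (η.re : ℂ) := by
    apply Complex.ext <;> simp [him]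
  rw [hre, Complex.norm_real, Real.norm_eq_abs] at hn
  rcases abs_eq (by norm_num : (0 : ℝ) ≤ 1) |>.1 hn with h3 | h3
  · apply h1
    rw [hre, h3]
    simp
  · apply h2
    rw [hre, h3]
    simp

/-- the points with `exp z = s⁻¹` -/
def zk (s : ℂ) (k : ℕ) : ℂ := -Complex.log s + k * (2 * Real.pi * Complex.I)

theorem exp_zk {s : ℂ} (hs : s ≠ 0) (k : ℕ) : Complex.exp (zk s k) = s⁻¹ := by
  unfold zk
  rw [Complex.exp_add, Complex.exp_neg, Complex.exp_log hs, Complex.exp_nat_mul_two_pi_mul_I,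
    mul_one]

theorem bad_subsingleton {l : ℕ} (hl : 3 ≤ l) {t η s : ℂ} (ht : t ≠ 0) (him : η.im ≠ 0) :
    {k : ℕ | t ^ l * Complex.exp ((l * η) * zk s k) = 1}.Subsingleton := by
  intro k1 h1 k2 h2
  have e1 : t ^ l * Complex.exp ((l * η) * zk s k1) = 1 := h1
  have e2 : t ^ l * Complex.exp ((l * η) * zk s k2) = 1 := h2
  have e3 := congrArg norm (e1.trans e2.symm)
  rw [norm_mul, norm_mul, Complex.norm_exp, Complex.norm_exp] at e3
  have e4 := mul_left_cancel₀ (norm_ne_zero_iff.2 (pow_ne_zero l ht)) e3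
  have e5 := Real.exp_injective e4
  have e6 : (((l : ℂ) * η) * zk s k1).re - (((l : ℂ) * η) * zk s k2).re =
      -((l : ℝ) * ((k1 : ℝ) - k2) * (2 * Real.pi) * η.im) := by
    rw [← Complex.sub_re, ← mul_sub]
    have : zk s k1 - zk s k2 = ((((k1 : ℝ) - k2) * (2 * Real.pi) : ℝ) : ℂ) * Complex.I := by
      unfold zk
      push_cast
      ring
    rw [this]
    have e7 : (l : ℂ) * η * ((((k1 : ℝ) - k2) * (2 * Real.pi) : ℝ) * Complex.I) =
        ((l * (((k1 : ℝ) - k2) * (2 * Real.pi)) : ℝ) : ℂ) * (η * Complex.I) := by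
      push_cast
      ring
    rw [e7, Complex.re_ofReal_mul, Complex.mul_I_re]
    ring
  rw [e5, sub_self] at e6
  have hl0 : (l : ℝ) ≠ 0 := by exact_mod_cast (by omega : l ≠ 0)
  have h7 : ((k1 : ℝ) - k2) = 0 := by
    have h8 : (l : ℝ) * ((k1 : ℝ) - k2) * (2 * Real.pi) * η.im = 0 := by linarith
    rcases mul_eq_zero.1 h8 with h9 | h9
    · rcases mul_eq_zero.1 h9 with h10 | h10
      · rcases mul_eq_zero.1 h10 with h11 | h11
        · exact absurd h11 hl0
        · exact h11
      · exact absurd h10 (by positivity)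
    · exact absurd h9 him
  have : (k1 : ℝ) = k2 := by linarith
  exact_mod_cast this

open Classical in
theorem card_eq {l c : ℕ} (hl : 3 ≤ l) (hodd : Odd l) (hn : Fintype.card ι < l) (hc : c < l - 1)
    (hce : Even c) {T : ι → ℂ} (h0 : ∀ v, T v ≠ 0) (h1 : ∀ v, T v ^ l ≠ 1)
    (hz : ∀ s, HH l (c + (l - 1) * s) T = 0) {s : ℂ} (hs : s ≠ 0) :
    (univ.filter fun v => T v = s).card = (univ.filter fun v => T v * s = 1).card := by
  have hl0 : (l : ℂ) ≠ 0 := by exact_mod_cast (by omega : l ≠ 0)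
  -- choice of the point
  have hfin : (⋃ η ∈ nthRootsFinset (l - 1) (1 : ℂ), ⋃ v : ι,
      {k : ℕ | (η ≠ 1 ∧ η ≠ -1) ∧ T v ^ l * Complex.exp ((l * η) * zk s k) = 1}).Finite := by
    apply Set.Finite.biUnion (Finset.finite_toSet _)
    intro η hη
    apply Set.finite_iUnion
    intro v
    by_cases h : η ≠ 1 ∧ η ≠ -1
    · apply Set.Finite.subset (bad_subsingleton hl (h0 v)
        (im_ne_zero (by omega) hη h.1 h.2) (s := s)).finite
      intro k hk
      exact hk.2
    · apply Set.Finite.subset Set.finite_empty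
      intro k hk
      exact absurd hk.1 h
  obtain ⟨k, hk⟩ := hfin.exists_notMem
  have hk' : ∀ η ∈ nthRootsFinset (l - 1) (1 : ℂ), η ≠ 1 → η ≠ -1 → ∀ v : ι,
      T v ^ l * Complex.exp ((l * η) * zk s k) ≠ 1 := by
    intro η hη h2 h3 v h4
    apply hk
    simp only [Set.mem_iUnion]
    exact ⟨η, hη, v, ⟨h2, h3⟩, h4⟩
  have hres := residue hl hc h1 hz (zk s k)
  have heven : Even (l - 1) := by
    obtain ⟨j, hj⟩ := hodd
    exact ⟨j, by omega⟩
  have m1 : (1 : ℂ) ∈ nthRootsFinset (l - 1) (1 : ℂ) := by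
    rw [mem_nthRootsFinset (by omega)]
    simp
  have m2 : (-1 : ℂ) ∈ nthRootsFinset (l - 1) (1 : ℂ) := by
    rw [mem_nthRootsFinset (by omega)]
    exact heven.neg_one_pow
  rw [← Finset.sum_subset (s₁ := {1, -1})] at hres
  rotate_left
  · intro η hη
    rcases Finset.mem_insert.1 hη with rfl | h
    · exact m1
    · rw [Finset.mem_singleton.1 h]
      exact m2
  · intro η hη hη2
    have h2 : η ≠ 1 := fun h => hη2 (by simp [h])
    have h3 : η ≠ -1 := fun h => hη2 (by simp [h])
    rw [Finset.sum_eq_zero, mul_zero]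
    intro v _
    have h4 := hk' η hη h2 h3 v
    rw [if_neg h4, if_neg (ne_of_pow h4), sub_self]
  rw [Finset.sum_pair (by norm_num)] at hres
  have hE : Complex.exp (zk s k) = s⁻¹ := exp_zk hs k
  have hE' : Complex.exp (-(zk s k)) = s := by rw [Complex.exp_neg, hE, inv_inv]
  have hpe : Even (l - 1 - c) := by
    rw [Nat.even_sub (by omega)]
    exact ⟨fun _ => hce, fun _ => heven⟩
  simp only [one_pow, hpe.neg_one_pow, one_mul] at hres
  have c1 : ∀ v, (T v * Complex.exp (zk s k) = 1) ↔ T v = s := by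
    intro v
    rw [hE, mul_inv_eq_one₀ hs]
  have c2 : ∀ v, (T v * Complex.exp (-1 * zk s k) = 1) ↔ T v * s = 1 := by
    intro v
    rw [neg_one_mul, hE']
  simp only [c1, c2, Finset.sum_sub_distrib, ← Finset.sum_filter, Finset.sum_const,
    nsmul_eq_mul] at hres
  set a := (univ.filter fun v => T v = s).card with ha
  set a' := (univ.filter fun v => T v * s = 1).card with ha'
  set b := (univ.filter fun v => T v ^ l * Complex.exp ((l : ℂ) * 1 * zk s k) = 1).card with hb
  set b' := (univ.filter fun v => T v ^ l * Complex.exp ((l : ℂ) * -1 * zk s k) = 1).card with hb'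
  have hbn : b ≤ Fintype.card ι := Finset.card_le_univ _
  have hbn' : b' ≤ Fintype.card ι := Finset.card_le_univ _
  have key : (l : ℂ) * ((a' : ℂ) - a) = b' - b := by
    have : (a : ℂ) * -(1 / 1) - b * -(1 / (l * 1)) + (a' * -(1 / -1) - b' * -(1 / (l * -1))) = 0 :=
      hres
    field_simp at this
    linear_combination this
  have key2 : (l : ℤ) * ((a' : ℤ) - a) = b' - b := by exact_mod_cast key
  have hd : (l : ℤ) ∣ (b' : ℤ) - b := ⟨_, key2.symm⟩
  have h3 : (b' : ℤ) - b = 0 := by
    apply Int.eq_zero_of_abs_lt_dvd hd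
    rw [abs_lt]
    constructor <;> omega
  rw [h3] at key2
  have hl0' : (l : ℤ) ≠ 0 := by exact_mod_cast (by omega : l ≠ 0)
  have := (mul_eq_zero.1 key2).resolve_left hl0'
  omega

/-- stability under inversion -/
def InvStable {E : Type*} [Field E] (T : ι → E) : Prop :=
  ∃ σ : Equiv.Perm ι, ∀ v, T (σ v) * T v = 1

open Classical in
theorem invStable_of_card {E : Type*} [Field E] {T : ι → E} (h0 : ∀ v, T v ≠ 0)
    (h : ∀ s, s ≠ 0 → (univ.filter fun v => T v = s).card = (univ.filter fun v => T v * s = 1).card) :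
    InvStable T := by
  have e : ∀ c : E, Nonempty ({v : ι // (T v)⁻¹ = c} ≃ {v : ι // T v = c}) := by
    intro c
    apply Fintype.card_eq.1
    by_cases hc : c = 0
    · subst hc
      rw [Fintype.card_eq_zero_iff.2, Fintype.card_eq_zero_iff.2]
      · exact ⟨fun v => h0 v.1 v.2⟩
      · exact ⟨fun v => h0 v.1 (inv_eq_zero.1 v.2)⟩
    · rw [Fintype.card_subtype, Fintype.card_subtype, h c hc]
      congr 1
      ext v
      simp only [Finset.mem_filter, Finset.mem_univ, true_and]
      constructor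
      · intro h
        rw [← h, mul_inv_cancel₀ (h0 v)]
      · intro h
        exact inv_eq_of_mul_eq_one_right h
  refine ⟨Equiv.ofFiberEquiv (f := fun v => (T v)⁻¹) (g := T) fun c => (e c).some, fun v => ?_⟩
  have := Equiv.ofFiberEquiv_map (f := fun v => (T v)⁻¹) (g := T) (fun c => (e c).some) v
  rw [this]
  exact inv_mul_cancel₀ (h0 v)

/-- **The complex part**: vanishing of the whole class gives stability under inversion. -/
theorem complex_part {l c : ℕ} (hl : 3 ≤ l) (hodd : Odd l) (hn : Fintype.card ι < l)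
    (hc : c < l - 1) (hce : Even c) {T : ι → ℂ} (h0 : ∀ v, T v ≠ 0) (h1 : ∀ v, T v ^ l ≠ 1)
    (hz : ∀ s, HH l (c + (l - 1) * s) T = 0) : InvStable T := by
  classical
  apply invStable_of_card h0
  intro s hs
  have := card_eq hl hodd hn hc hce h0 h1 hz hs
  convert this

end

end H90FD
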