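import Pool.Agent.H90.FD.Sop

/-!
# Project FD, step 2: `l`-adic size of the differences

`HH l m T = ∑_v (LL m (T v) - l^m LL m (T v ^ l))` is the value of `∑_{l ∤ n} n^m T^n`.  On a residue
class `m = c + (l-1) s` its `r`-th difference in `s` is divisible by `l^r`.
-/

open Finset

namespace H90FD

section alg

variable {E : Type*} [Field E]

/-- `∑_v (LL m (T v) - l^m LL m (T v ^ l))` -/
def HH {ι : Type*} [Fintype ι] (l m : ℕ) (T : ι → E) : E :=
  ∑ v, (LL m (T v) - (l : E) ^ m * LL m (T v ^ l))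

theorem hh_one {l : ℕ} (hl : 1 ≤ l) {m d : ℕ} (hd : m < d) {t : E} (ht : t ^ l ≠ 1) :
    LL m t - (l : E) ^ m * LL m (t ^ l) =
      ∑ b ∈ Ico 1 l, t ^ b * S d (fun n => ((l * n + b : ℕ) : E) ^ m) (t ^ l) := by
  have h := S_split (pol_pow (E := E) m hd) ht
  rw [LL_eq m hd] at h
  have e0 : S d (fun n => ((l * n + 0 : ℕ) : E) ^ m) (t ^ l) = (l : E) ^ m * LL m (t ^ l) := by
    rw [← LL_eq m hd, ← S_mul]
    congr 1
    funext n
    push_cast
    ring
  rw [h, Finset.range_eq_Ico, Finset.sum_eq_sum_Ico_succ_bot (by omega)]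
  rw [pow_zero, one_mul, e0]
  ring

end alg

section norm

variable {E : Type*} [NormedField E] [IsUltrametricDist E]

theorem norm_fwd (C : ℝ) (r : ℕ) : ∀ (q : ℕ → E), (∀ n, ‖q n‖ ≤ C) → ∀ n,
    ‖((fwdDiff 1)^[r] q) n‖ ≤ C := by
  induction r with
  | zero => intro q h n; simpa using h n
  | succ r ih =>
    intro q h n
    rw [Function.iterate_succ_apply]
    apply ih
    intro k
    show ‖q (k + 1) - q k‖ ≤ C
    rw [sub_eq_add_neg]
    refine (IsUltrametricDist.norm_add_le_max _ _).trans (max_le (h _) ?_)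
    rw [norm_neg]
    exact h _

theorem norm_S {C : ℝ} (hC : 0 ≤ C) (d : ℕ) {q : ℕ → E} (h : ∀ n, ‖q n‖ ≤ C) {t : E}
    (ht : ‖t‖ ≤ 1) (ht1 : ‖1 - t‖ = 1) : ‖S d q t‖ ≤ C := by
  unfold S
  apply IsUltrametricDist.norm_sum_le_of_forall_le_of_nonneg hC
  intro r _
  rw [norm_div, norm_mul, norm_pow, norm_pow, ht1, one_pow, div_one]
  calc ‖(fwdDiff 1)^[r] q 0‖ * ‖t‖ ^ r ≤ C * 1 := by
        apply mul_le_mul (norm_fwd C r q h 0) (pow_le_one₀ (norm_nonneg _) ht) (by positivity) hC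
    _ = C := mul_one C

theorem norm_natCast_dvd {l : ℕ} {n : ℤ} (h : (l : ℤ) ∣ n) : ‖(n : E)‖ ≤ ‖(l : E)‖ := by
  obtain ⟨k, rfl⟩ := h
  push_cast
  rw [norm_mul]
  calc ‖(l : E)‖ * ‖(k : E)‖ ≤ ‖(l : E)‖ * 1 := by
        apply mul_le_mul_of_nonneg_left (IsUltrametricDist.norm_intCast_le_one E k) (norm_nonneg _)
    _ = _ := mul_one _

/-- the differences of `s ↦ HH l (c + (l-1) s) T` -/
theorem norm_diff {ι : Type*} [Fintype ι] {l : ℕ} [hl : Fact l.Prime] (c : ℕ) (T : ι → E)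
    (h0 : ∀ v, ‖T v‖ ≤ 1) (h1 : ∀ v, ‖1 - T v ^ l‖ = 1) (r : ℕ) :
    ‖(fwdDiff 1)^[r] (fun s : ℕ => HH l (c + (l - 1) * s) T) 0‖ ≤ ‖(l : E)‖ ^ r := by
  have hlp : 1 ≤ l := hl.out.one_lt.le
  set d := c + (l - 1) * r + 1 with hd
  have hne : ∀ v, T v ^ l ≠ 1 := by
    intro v h
    have := h1 v
    rw [h, sub_self, norm_zero] at this
    exact zero_ne_one this
  -- the difference as a sum of values of `S`
  have key : (fwdDiff 1)^[r] (fun s : ℕ => HH l (c + (l - 1) * s) T) 0 =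
      ∑ v, ∑ b ∈ Ico 1 l, T v ^ b * S d (fun n => ((l * n + b : ℕ) : E) ^ c *
        (((l * n + b : ℕ) : E) ^ (l - 1) - 1) ^ r) (T v ^ l) := by
    rw [fwdDiff_iter_eq_sum_shift]
    have e1 : ∀ k ∈ range (r + 1), HH l (c + (l - 1) * k) T =
        ∑ v, ∑ b ∈ Ico 1 l, T v ^ b * S d (fun n => ((l * n + b : ℕ) : E) ^ (c + (l - 1) * k))
          (T v ^ l) := by
      intro k hk
      unfold HH
      refine Finset.sum_congr rfl fun v _ => hh_one hlp ?_ (hne v)
      have : (l - 1) * k ≤ (l - 1) * r :=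
        Nat.mul_le_mul_left _ (Nat.lt_succ_iff.1 (Finset.mem_range.1 hk))
      omega
    have e2 : ∑ k ∈ range (r + 1), ((-1 : ℤ) ^ (r - k) * (r.choose k : ℤ)) •
        (fun s : ℕ => HH l (c + (l - 1) * s) T) (0 + k • 1) =
        ∑ k ∈ range (r + 1), ∑ v, ∑ b ∈ Ico 1 l,
          T v ^ b * (((-1 : E) ^ (r - k) * (r.choose k : E)) *
            S d (fun n => ((l * n + b : ℕ) : E) ^ (c + (l - 1) * k)) (T v ^ l)) := by
      refine Finset.sum_congr rfl fun k hk => ?_
      simp only [smul_eq_mul, mul_one, zero_add]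
      rw [e1 k hk, zsmul_eq_mul, Finset.mul_sum]
      refine Finset.sum_congr rfl fun v _ => ?_
      rw [Finset.mul_sum]
      refine Finset.sum_congr rfl fun b _ => ?_
      push_cast
      ring
    rw [e2, Finset.sum_comm]
    refine Finset.sum_congr rfl fun v _ => ?_
    rw [Finset.sum_comm]
    refine Finset.sum_congr rfl fun b _ => ?_
    rw [← Finset.mul_sum]
    congr 1
    have e3 : ∀ k ∈ range (r + 1), ((-1 : E) ^ (r - k) * (r.choose k : E)) *
        S d (fun n => ((l * n + b : ℕ) : E) ^ (c + (l - 1) * k)) (T v ^ l) =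
        S d (fun n => ((-1 : E) ^ (r - k) * (r.choose k : E)) *
          ((l * n + b : ℕ) : E) ^ (c + (l - 1) * k)) (T v ^ l) := by
      intro k _
      rw [S_mul]
    rw [Finset.sum_congr rfl e3, ← S_sum]
    congr 1
    funext n
    rw [sub_eq_add_neg, (Commute.all _ _).add_pow, Finset.mul_sum]
    refine Finset.sum_congr rfl fun k _ => ?_
    rw [pow_add, pow_mul]
    ring
  rw [key]
  have hn : 0 ≤ ‖(l : E)‖ ^ r := by positivity
  apply IsUltrametricDist.norm_sum_le_of_forall_le_of_nonneg hn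
  intro v _
  apply IsUltrametricDist.norm_sum_le_of_forall_le_of_nonneg hn
  intro b hb
  rw [norm_mul, norm_pow]
  have hb' := Finset.mem_Ico.1 hb
  have h2 : ‖S d (fun n => ((l * n + b : ℕ) : E) ^ c *
        (((l * n + b : ℕ) : E) ^ (l - 1) - 1) ^ r) (T v ^ l)‖ ≤ ‖(l : E)‖ ^ r := by
    apply norm_S hn
    · intro n
      rw [norm_mul, norm_pow, norm_pow]
      have i1 : ‖((l * n + b : ℕ) : E)‖ ^ c ≤ 1 :=
        pow_le_one₀ (norm_nonneg _) (IsUltrametricDist.norm_natCast_le_one E _)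
      have i2 : ‖((l * n + b : ℕ) : E) ^ (l - 1) - 1‖ ≤ ‖(l : E)‖ := by
        have hdvd : (l : ℤ) ∣ ((l * n + b : ℕ) : ℤ) ^ (l - 1) - 1 := by
          have hc : IsCoprime ((l * n + b : ℕ) : ℤ) (l : ℤ) := by
            rw [Nat.isCoprime_iff_coprime]
            have : Nat.Coprime b l := by
              apply Nat.Coprime.symm
              rw [Nat.Prime.coprime_iff_not_dvd hl.out]
              intro hdiv
              exact absurd (Nat.le_of_dvd (by omega) hdiv) (by omega)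
            rw [add_comm]
            exact (Nat.coprime_add_mul_left_left b l n).2 this
          have := Int.ModEq.pow_card_sub_one_eq_one hl.out hc
          exact (Int.ModEq.symm this).dvd
        have := norm_natCast_dvd (E := E) hdvd
        push_cast at this
        push_cast
        exact this
      calc ‖((l * n + b : ℕ) : E)‖ ^ c * ‖((l * n + b : ℕ) : E) ^ (l - 1) - 1‖ ^ r
          ≤ 1 * ‖(l : E)‖ ^ r := by
            apply mul_le_mul i1 (pow_le_pow_left₀ (norm_nonneg _) i2 r) (by positivity) (by norm_num)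
        _ = _ := one_mul _
    · rw [norm_pow]
      exact pow_le_one₀ (norm_nonneg _) (h0 v)
    · exact h1 v
  calc ‖T v‖ ^ b * _ ≤ 1 * ‖(l : E)‖ ^ r := by
        apply mul_le_mul (pow_le_one₀ (norm_nonneg _) (h0 v)) h2 (norm_nonneg _) (by norm_num)
    _ = _ := one_mul _

/-- size of a relation: `∑ LL m (T v) = 0` makes `HH` small -/
theorem norm_HH_of_zero {ι : Type*} [Fintype ι] {l : ℕ} (T : ι → E)
    (h0 : ∀ v, ‖T v‖ ≤ 1) (h1 : ∀ v, ‖1 - T v ^ l‖ = 1) {m : ℕ} (hm : ∑ v, LL m (T v) = 0) :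
    ‖HH l m T‖ ≤ ‖(l : E)‖ ^ m := by
  unfold HH
  rw [Finset.sum_sub_distrib, hm, zero_sub, norm_neg, ← Finset.mul_sum, norm_mul, norm_pow]
  have h2 : ‖∑ v, LL m (T v ^ l)‖ ≤ 1 := by
    apply IsUltrametricDist.norm_sum_le_of_forall_le_of_nonneg (by norm_num)
    intro v _
    apply norm_S (by norm_num)
    · intro n
      rw [norm_pow]
      exact pow_le_one₀ (norm_nonneg _) (IsUltrametricDist.norm_natCast_le_one E _)
    · rw [norm_pow]
      exact pow_le_one₀ (norm_nonneg _) (h0 v)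
    · exact h1 v
  calc ‖(l : E)‖ ^ m * _ ≤ ‖(l : E)‖ ^ m * 1 := by
        apply mul_le_mul_of_nonneg_left h2 (by positivity)
    _ = _ := mul_one _

end norm

end H90FD
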