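import Pool.Agent.H69.FD.Eul
import Pool.Agent.H90.FD.Rec
import Pool.Agent.H90.FD.Diff

/-!
# Project FD, step 2: `H90FD.LL = H69FD.LL` and the congruences in this form
-/

open Finset Polynomial

namespace H90FD

theorem LL_eq69 {E : Type*} [Field E] (m : ℕ) (t : E) : H90FD.LL m t = H69FD.LL m t :=
  LL_eq_PE H69FD.eul rfl (fun _ => rfl) m t

/-- the congruences, one point, `H69FD.LL` -/
theorem norm_diff69 {E : Type*} [NormedField E] [IsUltrametricDist E] {l : ℕ} [Fact l.Prime]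
    (c : ℕ) {t : E} (h0 : ‖t‖ ≤ 1) (h1 : ‖1 - t ^ l‖ = 1) (r : ℕ) :
    ‖((fwdDiff 1)^[r] (fun s : ℕ => H69FD.LL (c + (l - 1) * s) t -
      (l : E) ^ (c + (l - 1) * s) * H69FD.LL (c + (l - 1) * s) (t ^ l))) 0‖ ≤ ‖(l : E)‖ ^ r := by
  have h := norm_diff (E := E) (ι := Unit) (l := l) c (fun _ => t) (fun _ => h0) (fun _ => h1) r
  have e : (fun s : ℕ => HH l (c + (l - 1) * s) (fun _ : Unit => t)) =
      fun s : ℕ => H69FD.LL (c + (l - 1) * s) t -
      (l : E) ^ (c + (l - 1) * s) * H69FD.LL (c + (l - 1) * s) (t ^ l) := by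
    funext s
    simp [HH, LL_eq69]
  rw [e] at h
  exact h

end H90FD
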