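import Pool.Agent.H90.FD.Pole

/-!
# Project FD, step 2: the complex argument, conclusion
-/

open Finset Polynomial

namespace H90FD

noncomputable section

variable {ι : Type*} [Fintype ι]

/-- the function with the derivatives `HH` -/
def Fm (l m : ℕ) (T : ι → ℂ) (η z : ℂ) : ℂ :=
  ∑ v, (LL m (T v * Complex.exp (η * z)) -
    (l : ℂ) ^ m * LL m (T v ^ l * Complex.exp ((l * η) * z)))

theorem pow_exp (l : ℕ) (t η z : ℂ) :
    t ^ l * Complex.exp ((l * η) * z) = (t * Complex.exp (η * z)) ^ l := by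
  rw [mul_pow, ← Complex.exp_nat_mul]
  congr 2
  ring

theorem ne_of_pow {l : ℕ} {t η z : ℂ} (h : t ^ l * Complex.exp ((l * η) * z) ≠ 1) :
    t * Complex.exp (η * z) ≠ 1 := by
  intro h'
  apply h
  rw [pow_exp, h', one_pow]

theorem Fm_hasDerivAt {l : ℕ} (m : ℕ) {T : ι → ℂ} {η z : ℂ}
    (h : ∀ v, T v ^ l * Complex.exp ((l * η) * z) ≠ 1) :
    HasDerivAt (Fm l m T η) (η * Fm l (m + 1) T η z) z := by
  unfold Fm
  rw [Finset.mul_sum]
  apply HasDerivAt.fun_sum
  intro v _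
  have h1 := LL_hasDerivAt m (T v) η z (ne_of_pow (h v))
  have h2 := (LL_hasDerivAt m (T v ^ l) (l * η) z (h v)).const_mul ((l : ℂ) ^ m)
  refine (h1.sub h2).congr_deriv ?_
  ring

/-- the averaged function -/
def Ps (l c : ℕ) (T : ι → ℂ) (m : ℕ) (z : ℂ) : ℂ :=
  ∑ η ∈ nthRootsFinset (l - 1) (1 : ℂ), η ^ (c + m) * Fm l m T η z

/-- the complement of the poles -/
def UU (l : ℕ) (T : ι → ℂ) : Set ℂ :=
  {z | ∀ η ∈ nthRootsFinset (l - 1) (1 : ℂ), ∀ v, T v ^ l * Complex.exp ((l * η) * z) ≠ 1}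

theorem Ps_hasDerivAt {l : ℕ} (c m : ℕ) {T : ι → ℂ} {z : ℂ} (h : z ∈ UU l T) :
    HasDerivAt (Ps l c T m) (Ps l c T (m + 1) z) z := by
  unfold Ps
  apply HasDerivAt.fun_sum
  intro η hη
  have h1 := (Fm_hasDerivAt m (h η hη)).const_mul (η ^ (c + m))
  refine h1.congr_deriv ?_
  ring

theorem UU_open (l : ℕ) (T : ι → ℂ) : IsOpen (UU l T) := by
  have e : UU l T = ⋂ η ∈ nthRootsFinset (l - 1) (1 : ℂ), ⋂ v,
      {z | T v ^ l * Complex.exp ((l * η) * z) ≠ 1} := by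
    ext z
    simp [UU]
  rw [e]
  apply isOpen_biInter_finset
  intro η _
  apply isOpen_iInter_of_finite
  intro v
  apply isOpen_ne_fun
  · fun_prop
  · fun_prop

theorem root_ne_zero {N : ℕ} (hN : 0 < N) {η : ℂ} (h : η ∈ nthRootsFinset N (1 : ℂ)) : η ≠ 0 := by
  rintro rfl
  rw [mem_nthRootsFinset hN, zero_pow hN.ne'] at h
  exact zero_ne_one h

theorem UU_countable {l : ℕ} (hl : 3 ≤ l) (T : ι → ℂ) : (UU l T)ᶜ.Countable := by
  have e : (UU l T)ᶜ ⊆ ⋃ η ∈ nthRootsFinset (l - 1) (1 : ℂ), ⋃ v,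
      {z | T v ^ l * Complex.exp ((l * η) * z) = 1} := by
    intro z hz
    simp only [UU, Set.mem_compl_iff, Set.mem_ofPred_eq, not_forall, not_not] at hz
    obtain ⟨η, hη, v, hv⟩ := hz
    simp only [Set.mem_iUnion, Set.mem_ofPred_eq]
    exact ⟨η, hη, v, hv⟩
  refine Set.Countable.mono e ?_
  apply Set.Countable.biUnion (Finset.countable_toSet _)
  intro η hη
  apply Set.countable_iUnion
  intro v
  apply countable_exp
  apply mul_ne_zero
  · exact_mod_cast (by omega : l ≠ 0)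
  · exact root_ne_zero (by omega) hη

theorem sum_roots_pow {N k : ℕ} (hN : 0 < N) (hk : ¬ N ∣ k) :
    ∑ η ∈ nthRootsFinset N (1 : ℂ), η ^ k = 0 := by
  have hζ := Complex.isPrimitiveRoot_exp N hN.ne'
  set ζ := Complex.exp (2 * Real.pi * Complex.I / N) with hζd
  have hζ0 : ζ ≠ 0 := hζ.ne_zero hN.ne'
  have h1 : ∑ η ∈ nthRootsFinset N (1 : ℂ), (ζ * η) ^ k =
      ∑ η ∈ nthRootsFinset N (1 : ℂ), η ^ k := by
    apply Finset.sum_nbij' (fun η => ζ * η) (fun η => ζ⁻¹ * η)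
    · intro η hη
      rw [mem_nthRootsFinset hN] at hη ⊢
      rw [mul_pow, hη, hζ.pow_eq_one, one_mul]
    · intro η hη
      rw [mem_nthRootsFinset hN] at hη ⊢
      rw [mul_pow, hη, inv_pow, hζ.pow_eq_one, inv_one, one_mul]
    · intro η _
      rw [inv_mul_cancel_left₀ hζ0]
    · intro η _
      rw [mul_inv_cancel_left₀ hζ0]
    · intro η _
      rfl
  have h2 : (ζ ^ k - 1) * ∑ η ∈ nthRootsFinset N (1 : ℂ), η ^ k = 0 := by
    rw [sub_mul, one_mul, sub_eq_zero, Finset.mul_sum, ← h1]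
    exact Finset.sum_congr rfl fun η _ => by rw [mul_pow]
  rcases mul_eq_zero.1 h2 with h3 | h3
  · exact absurd ((hζ.pow_eq_one_iff_dvd k).1 (sub_eq_zero.1 h3)) hk
  · exact h3

theorem Fm_at_zero (l m : ℕ) (T : ι → ℂ) (η : ℂ) : Fm l m T η 0 = HH l m T := by
  unfold Fm HH
  simp

theorem Ps_at_zero {l c m : ℕ} (hl : 3 ≤ l) (hc : c < l - 1) {T : ι → ℂ}
    (hz : ∀ s, HH l (c + (l - 1) * s) T = 0) : Ps l (l - 1 - c) T m 0 = 0 := by
  unfold Ps
  simp only [Fm_at_zero]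
  rw [← Finset.sum_mul]
  by_cases h : (l - 1) ∣ (l - 1 - c + m)
  · obtain ⟨k, hk⟩ := h
    have hk1 : 1 ≤ k := by
      rcases Nat.eq_zero_or_pos k with rfl | h
      · simp at hk
        omega
      · exact h
    obtain ⟨s, rfl⟩ := Nat.exists_eq_add_of_le hk1
    have : m = c + (l - 1) * s := by
      rw [mul_add, mul_one] at hk
      omega
    rw [this, hz s, mul_zero]
  · rw [sum_roots_pow (by omega) h, zero_mul]

theorem Ps_zero {l c : ℕ} (hl : 3 ≤ l) (hc : c < l - 1) {T : ι → ℂ} (h1 : ∀ v, T v ^ l ≠ 1)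
    (hz : ∀ s, HH l (c + (l - 1) * s) T = 0) : ∀ z ∈ UU l T, Ps l (l - 1 - c) T 0 z = 0 := by
  apply chain_zero (UU_open l T) (f := fun m => Ps l (l - 1 - c) T m) (z0 := 0)
  · have := (UU_countable hl T).isConnected_compl_of_one_lt_rank (by simp)
    rw [compl_compl] at this
    exact this.isPreconnected
  · intro m z hz'
    exact Ps_hasDerivAt _ m hz'
  · intro η _ v
    simpa using h1 v
  · intro m
    exact Ps_at_zero hl hc hz

open Classical in
/-- the residue identity -/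
theorem residue {l c : ℕ} (hl : 3 ≤ l) (hc : c < l - 1) {T : ι → ℂ} (h1 : ∀ v, T v ^ l ≠ 1)
    (hz : ∀ s, HH l (c + (l - 1) * s) T = 0) (z0 : ℂ) :
    ∑ η ∈ nthRootsFinset (l - 1) (1 : ℂ), η ^ (l - 1 - c) *
      ∑ v, ((if T v * Complex.exp (η * z0) = 1 then -(1 / η) else 0) -
        (if T v ^ l * Complex.exp ((l * η) * z0) = 1 then -(1 / (l * η)) else 0)) = 0 := by
  have hl0 : (l : ℂ) ≠ 0 := by exact_mod_cast (by omega : l ≠ 0)
  have hlim : Filter.Tendsto (fun z => ∑ η ∈ nthRootsFinset (l - 1) (1 : ℂ), η ^ (l - 1 - c) *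
      ∑ v, ((z - z0) * (1 / (1 - T v * Complex.exp (η * z))) -
        (z - z0) * (1 / (1 - T v ^ l * Complex.exp ((l * η) * z))))) (nhdsWithin z0 {z0}ᶜ)
      (nhds (∑ η ∈ nthRootsFinset (l - 1) (1 : ℂ), η ^ (l - 1 - c) *
      ∑ v, ((if T v * Complex.exp (η * z0) = 1 then -(1 / η) else 0) -
        (if T v ^ l * Complex.exp ((l * η) * z0) = 1 then -(1 / (l * η)) else 0)))) := by
    apply tendsto_finsetSum
    intro η hη
    apply Filter.Tendsto.const_mul
    apply tendsto_finsetSum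
    intro v _
    have hη0 := root_ne_zero (by omega) hη
    exact (tendsto_pole (T v) η z0 hη0).sub (tendsto_pole (T v ^ l) (l * η) z0
      (mul_ne_zero hl0 hη0))
  have hfun : ∀ z, ∑ η ∈ nthRootsFinset (l - 1) (1 : ℂ), η ^ (l - 1 - c) *
      ∑ v, ((z - z0) * (1 / (1 - T v * Complex.exp (η * z))) -
        (z - z0) * (1 / (1 - T v ^ l * Complex.exp ((l * η) * z)))) =
      (z - z0) * Ps l (l - 1 - c) T 0 z := by
    intro z
    unfold Ps Fm
    rw [Finset.mul_sum]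
    refine Finset.sum_congr rfl fun η _ => ?_
    have e : ∑ v, ((z - z0) * (1 / (1 - T v * Complex.exp (η * z))) -
        (z - z0) * (1 / (1 - T v ^ l * Complex.exp ((l * η) * z)))) =
        (z - z0) * ∑ v, (LL 0 (T v * Complex.exp (η * z)) -
          (l : ℂ) ^ 0 * LL 0 (T v ^ l * Complex.exp ((l * η) * z))) := by
      rw [Finset.mul_sum]
      refine Finset.sum_congr rfl fun v _ => ?_
      rw [LL_zero, LL_zero, pow_zero, one_mul, mul_sub]
    rw [e, add_zero, mul_left_comm]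
  have hne : (nhdsWithin z0 (UU l T ∩ {z0}ᶜ)).NeBot := by
    rw [← mem_closure_iff_nhdsWithin_neBot]
    have hcount : ((UU l T)ᶜ ∪ {z0} : Set ℂ).Countable :=
      (UU_countable hl T).union (Set.countable_singleton z0)
    have hd : Dense ((UU l T)ᶜ ∪ {z0})ᶜ := hcount.dense_compl ℂ
    rw [Set.compl_union, compl_compl] at hd
    exact hd z0
  have hz1 : Filter.Tendsto (fun z => ∑ η ∈ nthRootsFinset (l - 1) (1 : ℂ), η ^ (l - 1 - c) *
      ∑ v, ((z - z0) * (1 / (1 - T v * Complex.exp (η * z))) -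
        (z - z0) * (1 / (1 - T v ^ l * Complex.exp ((l * η) * z)))))
      (nhdsWithin z0 (UU l T ∩ {z0}ᶜ)) (nhds 0) := by
    apply tendsto_const_nhds.congr'
    filter_upwards [self_mem_nhdsWithin] with z hz'
    rw [hfun z, Ps_zero hl hc h1 hz z hz'.1, mul_zero]
  exact tendsto_nhds_unique (hlim.mono_left (nhdsWithin_mono _ Set.inter_subset_right)) hz1

end

end H90FD
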