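import Mathlib

/-!
# Project FD, step 2: the good prime
-/

open Finset Polynomial

namespace H90FD

theorem norm_le_one_of_integral {E : Type*} [NormedField E] [IsUltrametricDist E] {x : E}
    (h : IsIntegral ℤ x) : ‖x‖ ≤ 1 := by
  obtain ⟨p, hm, hp⟩ := h
  by_contra hx
  rw [not_le] at hx
  have hsum : x ^ p.natDegree = -∑ i ∈ range p.natDegree, ((p.coeff i : ℤ) : E) * x ^ i := by
    have h2 := hm.as_sum
    rw [h2] at hp
    simp only [eval₂_add, eval₂_pow, eval₂_X, eval₂_finsetSum, eval₂_mul, eval₂_C] at hp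
    rw [eq_neg_iff_add_eq_zero]
    simpa using hp
  rcases Nat.eq_zero_or_pos p.natDegree with h0 | h0
  · rw [h0] at hsum
    simp at hsum
  · have h3 : ‖x ^ p.natDegree‖ ≤ ‖x‖ ^ (p.natDegree - 1) := by
      rw [hsum, norm_neg]
      apply IsUltrametricDist.norm_sum_le_of_forall_le_of_nonneg (by positivity)
      intro i hi
      rw [norm_mul, norm_pow]
      have hi' : i ≤ p.natDegree - 1 := by
        have := Finset.mem_range.1 hi
        omega
      calc ‖((p.coeff i : ℤ) : E)‖ * ‖x‖ ^ i ≤ 1 * ‖x‖ ^ (p.natDegree - 1) := by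
            apply mul_le_mul (IsUltrametricDist.norm_intCast_le_one E _)
              (pow_le_pow_right₀ hx.le hi') (by positivity) (by norm_num)
        _ = _ := one_mul _
    rw [norm_pow] at h3
    have h4 := pow_lt_pow_right₀ hx (show p.natDegree - 1 < p.natDegree by omega)
    linarith

theorem norm_int_eq_one {l : ℕ} [Fact l.Prime] {y : ℤ} (h : ¬ (l : ℤ) ∣ y) :
    ‖(y : PadicAlgCl l)‖ = 1 := by
  have e : (y : PadicAlgCl l) = algebraMap ℚ_[l] (PadicAlgCl l) (y : ℚ_[l]) := by simp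
  rw [e]
  have h2 : ‖(algebraMap ℚ_[l] (PadicAlgCl l) (y : ℚ_[l]))‖ = ‖(y : ℚ_[l])‖ :=
    PadicAlgCl.norm_extends l _
  rw [h2]
  apply le_antisymm (Padic.norm_int_le_one y)
  by_contra hlt
  rw [not_le] at hlt
  exact h (Padic.norm_intCast_lt_one_iff.1 hlt)

/-- **The good prime.** -/
theorem good_prime (F : Finset (AlgebraicClosure ℚ)) (hF : (0 : AlgebraicClosure ℚ) ∉ F) (B : ℕ) :
    ∃ (l : ℕ) (_ : Fact l.Prime), B < l ∧
      ∃ σ : AlgebraicClosure ℚ →+* PadicAlgCl l, ∀ x ∈ F, ‖σ x‖ = 1 := by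
  classical
  have hQ : Algebra.IsAlgebraic ℚ (AlgebraicClosure ℚ) := by
    have h := AlgebraicClosure.isAlgebraic ℚ
    have e : (DivisionRing.toRatAlgebra : Algebra ℚ (AlgebraicClosure ℚ)) =
      AlgebraicClosure.instAlgebra ℚ := Subsingleton.elim _ _
    rw [e]
    exact h
  have : Algebra.IsAlgebraic ℤ (AlgebraicClosure ℚ) := by
    exact (IsFractionRing.comap_isAlgebraic_iff (A := ℤ) (K := ℚ)).2 hQ
  obtain ⟨y, hy0, hy⟩ := Algebra.IsAlgebraic.exists_integral_multiples ℤ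
    (F ∪ F.image (fun x => x⁻¹))
  obtain ⟨l, hl, hlp⟩ := Nat.exists_infinite_primes (B + y.natAbs + 1)
  have hfact : Fact l.Prime := ⟨hlp⟩
  have hndvd : ¬ (l : ℤ) ∣ y := by
    intro h
    have := Int.natAbs_dvd_natAbs.2 h
    simp only [Int.natAbs_natCast] at this
    have := Nat.le_of_dvd (Int.natAbs_pos.2 hy0) this
    omega
  have hny := norm_int_eq_one hndvd
  let σ : AlgebraicClosure ℚ →+* PadicAlgCl l :=
    (IsAlgClosed.lift (R := ℚ) (S := AlgebraicClosure ℚ) (M := PadicAlgCl l)).toRingHom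
  refine ⟨l, ⟨hlp⟩, by omega, σ, ?_⟩
  have key : ∀ z ∈ F ∪ F.image (fun x => x⁻¹), ‖σ z‖ ≤ 1 := by
    intro z hz
    have h1 := (hy z hz).map (σ.toIntAlgHom)
    have h2 : σ.toIntAlgHom (y • z) = (y : PadicAlgCl l) * σ z := by
      rw [zsmul_eq_mul]
      show σ ((y : AlgebraicClosure ℚ) * z) = _
      rw [map_mul, map_intCast]
    rw [h2] at h1
    have h3 := norm_le_one_of_integral h1
    rwa [norm_mul, hny, one_mul] at h3
  intro x hx
  have hx0 : x ≠ 0 := fun h => hF (h ▸ hx)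
  have hσ0 : σ x ≠ 0 := by
    rw [Ne, map_eq_zero]
    exact hx0
  apply le_antisymm (key x (Finset.mem_union_left _ hx))
  have h4 := key x⁻¹ (Finset.mem_union_right _ (Finset.mem_image_of_mem _ hx))
  rw [map_inv₀, norm_inv] at h4
  have h5 : 0 < ‖σ x‖ := norm_pos_iff.2 hσ0
  rw [inv_le_one₀ h5] at h4
  exact h4

end H90FD
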