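import Pool.Agent.H90.FD.Rec
import Pool.Agent.H90.FD.Diff

/-!
# Project FD, step 2: the complex argument

If `HH l m T = 0` for all `m ≡ c (mod l-1)`, `c` even, then the `T v` are stable under inversion.
-/

open Finset Polynomial

namespace H90FD

/-- the Eulerian polynomials -/
noncomputable def PEx : ℕ → ℤ[X]
  | 0 => 1
  | (m + 1) => X * ((1 - X) * derivative (PEx m) + ((m : ℤ[X]) + 1) * PEx m)

theorem LL_eq_PEx {E : Type*} [Field E] (m : ℕ) (t : E) :
    LL m t = aeval t (PEx m) / (1 - t) ^ (m + 1) :=
  LL_eq_PE PEx rfl (fun _ => rfl) m t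

theorem LL_zero {E : Type*} [Field E] (t : E) : LL 0 t = 1 / (1 - t) := by
  rw [LL_eq_PEx]
  simp [PEx]

theorem LL_hasDerivAt (m : ℕ) (t a z : ℂ) (h : t * Complex.exp (a * z) ≠ 1) :
    HasDerivAt (fun z => LL m (t * Complex.exp (a * z)))
      (a * LL (m + 1) (t * Complex.exp (a * z))) z := by
  have e : (fun z => LL m (t * Complex.exp (a * z))) = fun z =>
      aeval (t * Complex.exp (a * z)) (PEx m) / (1 - t * Complex.exp (a * z)) ^ (m + 1) := by
    funext z
    exact LL_eq_PEx m _
  rw [e, LL_eq_PEx (m + 1)]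
  have hw : HasDerivAt (fun z => t * Complex.exp (a * z)) (t * (Complex.exp (a * z) * a)) z := by
    have h1 : HasDerivAt (fun z => a * z) a z := by
      simpa using (hasDerivAt_id z).const_mul a
    exact h1.cexp.const_mul t
  have hp : HasDerivAt (fun z => aeval (t * Complex.exp (a * z)) (PEx m))
      (aeval (t * Complex.exp (a * z)) (derivative (PEx m)) * (t * (Complex.exp (a * z) * a))) z := by
    have h2 : HasDerivAt (fun w : ℂ => aeval w (PEx m))
        (aeval (t * Complex.exp (a * z)) (derivative (PEx m))) (t * Complex.exp (a * z)) :=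
      Polynomial.hasDerivAt_aeval (PEx m) (t * Complex.exp (a * z))
    exact HasDerivAt.comp (h₂ := fun w : ℂ => aeval w (PEx m)) z h2 hw
  have hd : HasDerivAt (fun z => (1 - t * Complex.exp (a * z)) ^ (m + 1))
      (((m + 1 : ℕ) : ℂ) * (1 - t * Complex.exp (a * z)) ^ m *
        (-(t * (Complex.exp (a * z) * a)))) z := by
    have := (hw.const_sub 1).fun_pow (m + 1)
    simpa using this
  have hne : (1 : ℂ) - t * Complex.exp (a * z) ≠ 0 := sub_ne_zero.2 (Ne.symm h)
  have := hp.div hd (pow_ne_zero _ hne)
  refine this.congr_deriv ?_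
  show _ = a * ((aeval (t * Complex.exp (a * z))) (X * ((1 - X) * derivative (PEx m) +
    ((m : ℤ[X]) + 1) * PEx m)) / (1 - t * Complex.exp (a * z)) ^ (m + 1 + 1))
  simp only [map_mul, map_add, map_sub, map_one, aeval_X, map_natCast]
  set w := t * Complex.exp (a * z) with hwdef
  have e2 : t * (Complex.exp (a * z) * a) = a * w := by rw [hwdef]; ring
  rw [e2]
  push_cast
  field_simp
  ring

/-- a chain of derivatives vanishing at a point -/
theorem chain_zero {U : Set ℂ} (hU : IsOpen U) (hc : IsPreconnected U) {f : ℕ → ℂ → ℂ}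
    (hf : ∀ m, ∀ z ∈ U, HasDerivAt (f m) (f (m + 1) z) z) {z0 : ℂ} (hz : z0 ∈ U)
    (h0 : ∀ m, f m z0 = 0) : ∀ z ∈ U, f 0 z = 0 := by
  have hdiff : DifferentiableOn ℂ (f 0) U := fun z hz =>
    (hf 0 z hz).differentiableAt.differentiableWithinAt
  have han : AnalyticOnNhd ℂ (f 0) U := hdiff.analyticOnNhd hU
  have hit : ∀ m, ∀ z ∈ U, iteratedDeriv m (f 0) z = f m z := by
    intro m
    induction m with
    | zero => intro z _; simp
    | succ m ih =>
      intro z hz
      rw [iteratedDeriv_succ]
      have : iteratedDeriv m (f 0) =ᶠ[nhds z] f m :=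
        Filter.eventuallyEq_of_mem (hU.mem_nhds hz) ih
      rw [this.deriv_eq]
      exact (hf m z hz).deriv
  have hps := (han z0 hz).hasFPowerSeriesAt
  have hzero : (FormalMultilinearSeries.ofScalars ℂ
      (fun n => iteratedDeriv n (f 0) z0 / n.factorial)) = 0 := by
    ext n
    simp [hit n z0 hz, h0 n, FormalMultilinearSeries.ofScalars]
  rw [hzero] at hps
  have hev : ∀ᶠ z in nhds z0, f 0 z = 0 := hps.eventually_eq_zero
  exact fun z hz' => han.eqOn_zero_of_preconnected_of_eventuallyEq_zero hc hz hev hz'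

/-- residues -/
theorem tendsto_pole (t a z0 : ℂ) (ha : a ≠ 0) :
    Filter.Tendsto (fun z => (z - z0) * (1 / (1 - t * Complex.exp (a * z)))) (nhdsWithin z0 {z0}ᶜ)
      (nhds (if t * Complex.exp (a * z0) = 1 then -(1 / a) else 0)) := by
  have hw : HasDerivAt (fun z => 1 - t * Complex.exp (a * z))
      (-(t * (Complex.exp (a * z0) * a))) z0 := by
    have h1 : HasDerivAt (fun z => a * z) a z0 := by
      simpa using (hasDerivAt_id z0).const_mul a
    exact (h1.cexp.const_mul t).const_sub 1
  split_ifs with h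
  · have h2 := hw.tendsto_slope
    have e : -(t * (Complex.exp (a * z0) * a)) = -a := by
      rw [← mul_assoc, h, one_mul]
    rw [e] at h2
    have h3 := h2.inv₀ (neg_ne_zero.2 ha)
    have e2 : (-a)⁻¹ = -(1 / a) := by
      field_simp
    rw [e2] at h3
    refine h3.congr fun z => ?_
    rw [slope_def_field, h, sub_self, sub_zero, inv_div]
    ring
  · have h2 : ContinuousAt (fun z => (z - z0) * (1 / (1 - t * Complex.exp (a * z)))) z0 := by
      apply ContinuousAt.mul
      · fun_prop
      · apply ContinuousAt.div continuousAt_const hw.continuousAt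
        exact sub_ne_zero.2 (Ne.symm h)
    have h3 := h2.tendsto
    simp only [sub_self, zero_mul] at h3
    exact h3.mono_left nhdsWithin_le_nhds

theorem countable_exp (a b : ℂ) (ha : a ≠ 0) : {z : ℂ | b * Complex.exp (a * z) = 1}.Countable := by
  by_cases h : ∃ z1 : ℂ, b * Complex.exp (a * z1) = 1
  · obtain ⟨z1, h1⟩ := h
    have : {z : ℂ | b * Complex.exp (a * z) = 1} ⊆
        Set.range (fun n : ℤ => z1 + n * (2 * Real.pi * Complex.I) / a) := by
      intro z hz
      have hz' : b * Complex.exp (a * z) = 1 := hz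
      have hb : b ≠ 0 := by
        rintro rfl
        simp at hz'
      have : Complex.exp (a * z) = Complex.exp (a * z1) :=
        mul_left_cancel₀ hb (hz'.trans h1.symm)
      obtain ⟨n, hn⟩ := Complex.exp_eq_exp_iff_exists_int.1 this
      refine ⟨n, ?_⟩
      show z1 + n * (2 * Real.pi * Complex.I) / a = z
      field_simp
      linear_combination -hn
    exact (Set.countable_range _).mono this
  · have : {z : ℂ | b * Complex.exp (a * z) = 1} = ∅ := by
      ext z
      simp only [Set.mem_ofPred_eq, Set.mem_empty_iff_false, iff_false]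
      exact fun hz => h ⟨z, hz⟩
    rw [this]
    exact Set.countable_empty

end H90FD
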