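import Mathlib

/-!
# Project FD (MP_ef6a16_nt), step 2: the summation operator

For a sequence `q` which is a polynomial function of degree `< d` (that is `Δ^d q = 0`) the number
`S d q t = ∑_{r<d} (Δ^r q)(0) t^r / (1-t)^(r+1)` is the value at `t` of the rational function
`∑ q(n) t^n`.  Everything is elementary algebra over a field: functional equation, splitting into
residue classes, independence of `d`.
-/

open Finset

namespace H90FD

section alg

variable {E : Type*} [Field E]

/-- `S d q t = ∑_{r<d} (Δ^r q)(0) t^r / (1-t)^(r+1)` -/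
def S (d : ℕ) (q : ℕ → E) (t : E) : E :=
  ∑ r ∈ range d, ((fwdDiff 1)^[r] q) 0 * t ^ r / (1 - t) ^ (r + 1)

/-- `q` is a polynomial function of degree `< d` -/
def Pol (d : ℕ) (q : ℕ → E) : Prop := (fwdDiff 1)^[d] q = 0

/-- `LL m t = ∑ n^m t^n` -/
def LL (m : ℕ) (t : E) : E := S (m + 1) (fun n => (n : E) ^ m) t

theorem iter_zero (r : ℕ) : ((fwdDiff 1)^[r] (0 : ℕ → E)) = 0 := by
  induction r with
  | zero => rfl
  | succ r ih =>
    rw [Function.iterate_succ_apply', ih]
    funext n
    simp [fwdDiff]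

theorem iter_add (r : ℕ) (p q : ℕ → E) :
    (fwdDiff 1)^[r] (fun n => p n + q n) = fun n => ((fwdDiff 1)^[r] p) n + ((fwdDiff 1)^[r] q) n := by
  have h := fwdDiff_iter_add (h := (1 : ℕ)) p q r
  have e : (fun n => p n + q n) = p + q := rfl
  rw [e, h]
  rfl

theorem iter_mul (r : ℕ) (c : E) (q : ℕ → E) :
    (fwdDiff 1)^[r] (fun n => c * q n) = fun n => c * ((fwdDiff 1)^[r] q) n := by
  have h := fwdDiff_iter_const_smul (h := (1 : ℕ)) c q r
  have e : (fun n => c * q n) = c • q := rfl
  rw [e, h]
  rfl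

theorem iter_sum (r : ℕ) {ι : Type*} (s : Finset ι) (q : ι → ℕ → E) :
    (fwdDiff 1)^[r] (fun n => ∑ i ∈ s, q i n) = fun n => ∑ i ∈ s, ((fwdDiff 1)^[r] (q i)) n := by
  classical
  induction s using Finset.induction_on with
  | empty =>
    simp only [Finset.sum_empty]
    exact iter_zero (E := E) r
  | insert a s ha ih =>
    have e : (fun n => ∑ i ∈ insert a s, q i n) = fun n => q a n + ∑ i ∈ s, q i n := by
      funext n
      rw [Finset.sum_insert ha]
    rw [e, iter_add, ih]
    funext n
    rw [Finset.sum_insert ha]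

theorem iter_shift (r : ℕ) (q : ℕ → E) :
    (fwdDiff 1)^[r] (fun n => q (n + 1)) = fun n => ((fwdDiff 1)^[r] q) (n + 1) := by
  induction r with
  | zero => rfl
  | succ r ih =>
    rw [Function.iterate_succ_apply', ih, Function.iterate_succ_apply']
    rfl

theorem iter_succ_zero (r : ℕ) (q : ℕ → E) :
    ((fwdDiff 1)^[r] q) 1 = ((fwdDiff 1)^[r] q) 0 + ((fwdDiff 1)^[r + 1] q) 0 := by
  rw [Function.iterate_succ_apply']
  simp [fwdDiff]

theorem iter_cast (f : E → E) (r : ℕ) :
    (fwdDiff 1)^[r] (fun n : ℕ => f n) = fun n : ℕ => ((fwdDiff 1)^[r] f) (n : E) := by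
  induction r with
  | zero => rfl
  | succ r ih =>
    rw [Function.iterate_succ_apply', ih, Function.iterate_succ_apply']
    funext n
    simp [fwdDiff]

theorem Pol.mono {d d' : ℕ} {q : ℕ → E} (h : Pol d q) (hd : d ≤ d') : Pol d' q := by
  obtain ⟨k, rfl⟩ := Nat.exists_eq_add_of_le hd
  unfold Pol at *
  rw [add_comm, Function.iterate_add_apply, h, iter_zero]

theorem Pol.add {d : ℕ} {p q : ℕ → E} (hp : Pol d p) (hq : Pol d q) :
    Pol d (fun n => p n + q n) := by
  unfold Pol at *
  rw [iter_add, hp, hq]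
  funext n
  simp

theorem Pol.mul {d : ℕ} {q : ℕ → E} (hq : Pol d q) (c : E) : Pol d (fun n => c * q n) := by
  unfold Pol at *
  rw [iter_mul, hq]
  funext n
  simp

theorem Pol.sum {d : ℕ} {ι : Type*} {s : Finset ι} {q : ι → ℕ → E} (h : ∀ i ∈ s, Pol d (q i)) :
    Pol d (fun n => ∑ i ∈ s, q i n) := by
  unfold Pol at *
  rw [iter_sum]
  funext n
  exact Finset.sum_eq_zero fun i hi => by rw [h i hi]; rfl

theorem Pol.diff {d : ℕ} {q : ℕ → E} (h : Pol (d + 1) q) : Pol d (fun n => q (n + 1) - q n) := by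
  unfold Pol at *
  rw [Function.iterate_succ_apply] at h
  exact h

theorem Pol.of_diff {d : ℕ} {q : ℕ → E} (h : Pol d (fun n => q (n + 1) - q n)) :
    Pol (d + 1) q := by
  unfold Pol at *
  rw [Function.iterate_succ_apply]
  exact h

theorem Pol.comp {d : ℕ} : ∀ {q : ℕ → E}, Pol d q → ∀ m b : ℕ, Pol d (fun n => q (m * n + b)) := by
  induction d with
  | zero =>
    intro q h m b
    have h' : q = 0 := h
    subst h'
    exact rfl
  | succ d ih =>
    intro q h m b
    apply Pol.of_diff
    have e : (fun n => q (m * (n + 1) + b) - q (m * n + b)) =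
        fun n => ∑ i ∈ range m, (fun k => q (k + 1) - q k) (m * n + (b + i)) := by
      funext n
      have := Finset.sum_range_sub (fun i => q (m * n + (b + i))) m
      simp only [add_zero] at this
      rw [show m * (n + 1) + b = m * n + (b + m) by ring, ← this]
      exact Finset.sum_congr rfl fun i _ => by rw [show m * n + (b + (i + 1)) = m * n + (b + i) + 1 by ring]
    rw [e]
    exact Pol.sum fun i _ => ih h.diff m (b + i)

theorem Pol.shift {d : ℕ} {q : ℕ → E} (h : Pol d q) : Pol d (fun n => q (n + 1)) := by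
  have := h.comp 1 1
  simpa using this

/-- polynomials give polynomial functions -/
theorem pol_eval (P : Polynomial E) {d : ℕ} (hd : P.natDegree < d) :
    Pol d (fun n : ℕ => P.eval (n : E)) := by
  have h := P.fwdDiff_iter_eq_zero_of_degree_lt hd
  unfold Pol
  rw [iter_cast (fun x => P.eval x)]
  funext n
  have : ((fwdDiff 1)^[d] fun x => P.eval x) = 0 := h
  rw [this]
  rfl

theorem pol_pow (m : ℕ) {d : ℕ} (hd : m < d) : Pol d (fun n : ℕ => (n : E) ^ m) := by
  have := pol_eval (E := E) (Polynomial.X ^ m) (d := d) (by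
    rw [Polynomial.natDegree_X_pow]; exact hd)
  simpa using this

/-! ### the operator -/

theorem S_add (d : ℕ) (p q : ℕ → E) (t : E) :
    S d (fun n => p n + q n) t = S d p t + S d q t := by
  unfold S
  rw [← Finset.sum_add_distrib]
  refine Finset.sum_congr rfl fun r _ => ?_
  rw [iter_add]
  ring

theorem S_mul (d : ℕ) (c : E) (q : ℕ → E) (t : E) :
    S d (fun n => c * q n) t = c * S d q t := by
  unfold S
  rw [Finset.mul_sum]
  refine Finset.sum_congr rfl fun r _ => ?_
  rw [iter_mul]
  ring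

theorem S_sum (d : ℕ) {ι : Type*} (s : Finset ι) (q : ι → ℕ → E) (t : E) :
    S d (fun n => ∑ i ∈ s, q i n) t = ∑ i ∈ s, S d (q i) t := by
  unfold S
  rw [Finset.sum_comm]
  refine Finset.sum_congr rfl fun r _ => ?_
  rw [iter_sum, Finset.sum_mul, Finset.sum_div]

theorem S_mono {d d' : ℕ} {q : ℕ → E} (h : Pol d q) (hd : d ≤ d') (t : E) :
    S d' q t = S d q t := by
  unfold S
  symm
  apply Finset.sum_subset (Finset.range_mono hd)
  intro r _ hr
  have h' : Pol r q := h.mono (by simpa using hr)
  have h'' : (fwdDiff 1)^[r] q = 0 := h'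
  rw [h'']
  simp

/-- the functional equation -/
theorem S_step {d : ℕ} {q : ℕ → E} (h : Pol d q) {t : E} (ht : t ≠ 1) :
    S d q t = q 0 + t * S d (fun n => q (n + 1)) t := by
  have h1 : (1 : E) - t ≠ 0 := sub_ne_zero.2 (Ne.symm ht)
  cases d with
  | zero =>
    have h' : q = 0 := h
    subst h'
    simp [S]
  | succ d =>
    have hd0 : ((fwdDiff 1)^[d + 1] q) 0 = 0 := by
      have h' : (fwdDiff 1)^[d + 1] q = 0 := h
      rw [h']
      rfl
    -- `t * S (E q) = ∑ (δ_r + δ_{r+1}) t^(r+1)/(1-t)^(r+1)`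
    have e1 : t * S (d + 1) (fun n => q (n + 1)) t =
        ∑ r ∈ range (d + 1), (((fwdDiff 1)^[r] q) 0 * (t ^ (r + 1) / (1 - t) ^ (r + 1)) +
          ((fwdDiff 1)^[r + 1] q) 0 * (t ^ (r + 1) / (1 - t) ^ (r + 1))) := by
      unfold S
      rw [Finset.mul_sum]
      refine Finset.sum_congr rfl fun r _ => ?_
      rw [iter_shift]
      show t * (((fwdDiff 1)^[r] q) (0 + 1) * t ^ r / (1 - t) ^ (r + 1)) = _
      rw [zero_add, iter_succ_zero]
      ring
    have e2 : ∑ r ∈ range (d + 1), ((fwdDiff 1)^[r + 1] q) 0 * (t ^ (r + 1) / (1 - t) ^ (r + 1)) =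
        ∑ r ∈ range (d + 1), ((fwdDiff 1)^[r] q) 0 * (t ^ r / (1 - t) ^ r) - q 0 := by
      have := Finset.sum_range_succ' (fun r => ((fwdDiff 1)^[r] q) 0 * (t ^ r / (1 - t) ^ r)) (d + 1)
      have h2 := Finset.sum_range_succ (fun r => ((fwdDiff 1)^[r] q) 0 * (t ^ r / (1 - t) ^ r)) (d + 1)
      rw [h2, hd0] at this
      simp only [Function.iterate_zero, id_eq, pow_zero, div_one, mul_one, zero_mul,
        add_zero] at this
      rw [this]
      ring
    rw [e1, Finset.sum_add_distrib, e2]
    unfold S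
    rw [show q 0 + (∑ r ∈ range (d + 1), ((fwdDiff 1)^[r] q) 0 * (t ^ (r + 1) / (1 - t) ^ (r + 1)) +
        (∑ r ∈ range (d + 1), ((fwdDiff 1)^[r] q) 0 * (t ^ r / (1 - t) ^ r) - q 0)) =
        ∑ r ∈ range (d + 1), ((fwdDiff 1)^[r] q) 0 * (t ^ (r + 1) / (1 - t) ^ (r + 1)) +
        ∑ r ∈ range (d + 1), ((fwdDiff 1)^[r] q) 0 * (t ^ r / (1 - t) ^ r) by ring,
      ← Finset.sum_add_distrib]
    refine Finset.sum_congr rfl fun r _ => ?_
    field_simp
    ring

/-- splitting into residue classes mod `m` -/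
theorem S_split {d : ℕ} {q : ℕ → E} (h : Pol d q) {m : ℕ} {t : E} (ht : t ^ m ≠ 1) :
    S d q t = ∑ b ∈ range m, t ^ b * S d (fun n => q (m * n + b)) (t ^ m) := by
  have ht1 : t ≠ 1 := fun h => ht (by rw [h, one_pow])
  -- the functional equation of the right hand side
  have hA : ∀ q : ℕ → E, Pol d q →
      ∑ b ∈ range m, t ^ b * S d (fun n => q (m * n + b)) (t ^ m) = q 0 +
        t * ∑ b ∈ range m, t ^ b * S d (fun n => q (m * n + b + 1)) (t ^ m) := by
    intro q hq
    have e0 := Finset.sum_range_succ'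
      (fun b => t ^ b * S d (fun n => q (m * n + b)) (t ^ m)) m
    have e1 := Finset.sum_range_succ
      (fun b => t ^ b * S d (fun n => q (m * n + b)) (t ^ m)) m
    have e2 : S d (fun n => q (m * n + 0)) (t ^ m) =
        q 0 + t ^ m * S d (fun n => q (m * n + m)) (t ^ m) := by
      have := S_step (hq.comp m 0) ht
      simp only [mul_zero, add_zero, mul_add, mul_one] at this
      simpa only [add_zero] using this
    have e3 : t * ∑ b ∈ range m, t ^ b * S d (fun n => q (m * n + b + 1)) (t ^ m) =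
        ∑ b ∈ range m, t ^ (b + 1) * S d (fun n => q (m * n + (b + 1))) (t ^ m) := by
      rw [Finset.mul_sum]
      refine Finset.sum_congr rfl fun b _ => ?_
      rw [pow_succ]
      simp only [add_assoc]
      ring
    rw [e3]
    rw [e1] at e0
    simp only [pow_zero, one_mul] at e0
    rw [e2] at e0
    linear_combination e0
  -- induction on the degree
  have key : ∀ e : ℕ, e ≤ d → ∀ q : ℕ → E, Pol e q →
      S d q t = ∑ b ∈ range m, t ^ b * S d (fun n => q (m * n + b)) (t ^ m) := by
    intro e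
    induction e with
    | zero =>
      intro _ q hq
      have h' : q = 0 := hq
      subst h'
      have : ∀ (x : E), S d (fun _ => (0 : ℕ → E) 0) x = 0 := by
        intro x
        have := S_mul d (0 : E) (fun _ => (0 : E)) x
        simpa using this
      have h3 : ∀ x : E, S d (0 : ℕ → E) x = 0 := this
      rw [h3]
      symm
      apply Finset.sum_eq_zero
      intro b _
      have h4 := this (t ^ m)
      simp only [Pi.zero_apply] at h4 ⊢
      rw [h4, mul_zero]
    | succ e ih =>
      intro he q hq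
      have hq' : Pol d q := hq.mono he
      have i1 := ih (by omega) _ hq.diff
      have s1 := S_step hq' ht1
      have s2 := hA q hq'
      have s3 : S d (fun n => q (n + 1)) t = S d q t + S d (fun n => q (n + 1) - q n) t := by
        rw [← S_add]
        congr 1
        funext n
        ring
      have s4 : ∀ b, S d (fun n => q (m * n + b + 1)) (t ^ m) =
          S d (fun n => q (m * n + b)) (t ^ m) +
          S d (fun n => q (m * n + b + 1) - q (m * n + b)) (t ^ m) := by
        intro b
        rw [← S_add]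
        congr 1
        funext n
        ring
      have s5 : ∑ b ∈ range m, t ^ b * S d (fun n => q (m * n + b + 1)) (t ^ m) =
          ∑ b ∈ range m, t ^ b * S d (fun n => q (m * n + b)) (t ^ m) +
          ∑ b ∈ range m, t ^ b * S d (fun n => q (m * n + b + 1) - q (m * n + b)) (t ^ m) := by
        rw [← Finset.sum_add_distrib]
        exact Finset.sum_congr rfl fun b _ => by rw [s4 b, mul_add]
      rw [s5] at s2
      rw [s3, i1] at s1
      have h1 : (1 : E) - t ≠ 0 := sub_ne_zero.2 (Ne.symm ht1)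
      apply mul_left_cancel₀ h1
      linear_combination s1 - s2
  exact key d le_rfl q h

theorem LL_eq (m : ℕ) {d : ℕ} (hd : m < d) (t : E) : S d (fun n => (n : E) ^ m) t = LL m t :=
  S_mono (pol_pow m (Nat.lt_succ_self m)) hd t

end alg

end H90FD
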